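import Mathlib

/-!
# Hilbert 90 for open subgroups of infinite Galois groups
-/

set_option autoImplicit false

open scoped Topology

namespace Pool.Agent.L0h30.H1

theorem h90 {K Ω : Type*} [Field K] [Field Ω] [Algebra K Ω] [Normal K Ω]
    (S : Subgroup (Ω ≃ₐ[K] Ω)) (u : (Ω ≃ₐ[K] Ω) → Ω) (hu0 : ∀ σ, u σ ≠ 0)
    (hu : ∀ σ ∈ S, ∀ τ, u (σ * τ) = u σ * σ (u τ)) (W : Set (Ω ≃ₐ[K] Ω)) (hW : W ∈ 𝓝 1)
    (hWS : ∀ τ ∈ W, τ ∈ S) (hWu : ∀ σ, ∀ τ ∈ W, u (σ * τ) = u σ) :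
    ∃ β : Ω, β ≠ 0 ∧ ∀ σ ∈ S, σ β = u σ * β := by
  classical
  rw [krullTopology_mem_nhds_one_iff_of_normal] at hW
  obtain ⟨E, hE1, hE2, hE3⟩ := hW
  let r : (Ω ≃ₐ[K] Ω) → (E ≃ₐ[K] E) := fun σ => σ.restrictNormal E
  let l : (E ≃ₐ[K] E) → (Ω ≃ₐ[K] Ω) := fun τ => τ.liftNormal Ω
  have hr : ∀ (σ : Ω ≃ₐ[K] Ω) (x : E), ((r σ x : E) : Ω) = σ x := fun σ x =>
    AlgEquiv.restrictNormal_commutes σ E x
  have hl : ∀ (τ : E ≃ₐ[K] E) (x : E), l τ (x : Ω) = ((τ x : E) : Ω) := fun τ x =>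
    AlgEquiv.liftNormal_commutes τ Ω x
  have hker : ∀ σ σ' : Ω ≃ₐ[K] Ω, (∀ x : E, σ (x : Ω) = σ' (x : Ω)) →
      u σ' = u σ ∧ (σ ∈ S → σ' ∈ S) := by
    intro σ σ' hx
    have h2 : σ⁻¹ * σ' ∈ E.fixingSubgroup := by
      rw [IntermediateField.mem_fixingSubgroup_iff]
      intro x hxE
      rw [AlgEquiv.mul_apply, ← hx ⟨x, hxE⟩, ← AlgEquiv.mul_apply, inv_mul_cancel]
      rfl
    have h3 : σ⁻¹ * σ' ∈ W := hE3 h2
    have e : σ' = σ * (σ⁻¹ * σ') := by rw [← mul_assoc, mul_inv_cancel, one_mul]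
    refine ⟨?_, fun hσ => ?_⟩
    · rw [e]
      exact hWu _ _ h3
    · rw [e]
      exact mul_mem hσ (hWS _ h3)
  let T : Finset (E ≃ₐ[K] E) := Finset.univ.filter fun τ => l τ ∈ S
  let φ : (E ≃ₐ[K] E) → (E →ₐ[K] Ω) := fun τ => E.val.comp (τ : E →ₐ[K] E)
  have hφ : Function.Injective φ := by
    intro τ τ' h
    ext x
    exact congrArg (fun f : E →ₐ[K] Ω => f x) h
  have hli := (linearIndependent_algHom_toLinearMap K E Ω).comp φ hφ
  have hne : ∃ a : E, ∑ τ ∈ T, u (l τ) * ((τ a : E) : Ω) ≠ 0 := by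
    by_contra hcon
    push Not at hcon
    have h1 := Fintype.linearIndependent_iff.1 hli (fun τ => if τ ∈ T then u (l τ) else 0) (by
      ext a
      have h2 := hcon a
      rw [LinearMap.sum_apply, LinearMap.zero_apply]
      refine Eq.trans ?_ h2
      rw [← Finset.sum_filter_add_sum_filter_not Finset.univ (fun τ => τ ∈ T)]
      have h3 : ∑ x ∈ Finset.univ.filter (fun τ => ¬ τ ∈ T),
          (((if x ∈ T then u (l x) else 0) • ((AlgHom.toLinearMap ∘ φ) x)) : E →ₗ[K] Ω) a = 0 := by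
        apply Finset.sum_eq_zero
        intro x hx
        rw [Finset.mem_filter] at hx
        rw [if_neg hx.2, zero_smul, LinearMap.zero_apply]
      rw [h3, add_zero, Finset.filter_mem_eq_inter, Finset.univ_inter]
      apply Finset.sum_congr rfl
      intro x hx
      rw [if_pos hx]
      rfl) 1
    have h4 : (1 : E ≃ₐ[K] E) ∈ T := by
      rw [Finset.mem_filter]
      refine ⟨Finset.mem_univ _, (hker 1 (l 1) ?_).2 (one_mem S)⟩
      intro x
      rw [hl]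
      rfl
    simp only [if_pos h4] at h1
    exact hu0 _ h1
  obtain ⟨a, ha⟩ := hne
  set b : Ω := ∑ τ ∈ T, u (l τ) * ((τ a : E) : Ω) with hb
  have key : ∀ σ ∈ S, u σ * σ b = b := by
    intro σ hσ
    rw [hb, map_sum, Finset.mul_sum]
    refine Finset.sum_equiv (Equiv.mulLeft (r σ)) ?_ ?_
    · intro τ
      have h1 : ∀ x : E, (σ * l τ) (x : Ω) = l (r σ * τ) x := by
        intro x
        rw [AlgEquiv.mul_apply, hl, hl, AlgEquiv.mul_apply, hr]
      simp only [T, Finset.mem_filter, Finset.mem_univ, true_and, Equiv.coe_mulLeft]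
      constructor
      · intro h
        exact (hker _ _ h1).2 (mul_mem hσ h)
      · intro h
        have h2 := (hker _ _ fun x => (h1 x).symm).2 h
        exact (Subgroup.mul_mem_cancel_left S hσ).1 h2
    · intro τ hτ
      have h1 : ∀ x : E, (σ * l τ) (x : Ω) = l (r σ * τ) x := by
        intro x
        rw [AlgEquiv.mul_apply, hl, hl, AlgEquiv.mul_apply, hr]
      have h2 := (hker _ _ h1).1
      show u σ * σ (u (l τ) * ((τ a : E) : Ω)) = u (l (r σ * τ)) * (((r σ * τ) a : E) : Ω)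
      rw [h2, hu σ hσ, map_mul, AlgEquiv.mul_apply, hr]
      ring
  refine ⟨b⁻¹, inv_ne_zero ha, fun σ hσ => ?_⟩
  have h1 := key σ hσ
  have h2 : σ b ≠ 0 := (map_ne_zero σ).2 ha
  rw [map_inv₀, eq_mul_inv_iff_mul_eq₀ ha]
  calc (σ b)⁻¹ * b = (σ b)⁻¹ * (u σ * σ b) := by rw [h1]
    _ = u σ * ((σ b)⁻¹ * σ b) := by ring
    _ = u σ := by rw [inv_mul_cancel₀ h2, mul_one]

end Pool.Agent.L0h30.H1
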