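import Mathlib

/-!
# The norm form of the unramified quadratic extension of `ℚ_2`
-/

set_option autoImplicit false

namespace Pool.Agent.L0h30.H1

theorem norm_two' : ‖(2 : ℚ_[2])‖ = 2⁻¹ := by
  have := Padic.norm_p (p := 2)
  simpa using this

theorem norm_four : ‖(4 : ℚ_[2])‖ = 4⁻¹ := by
  have h : (4 : ℚ_[2]) = 2 * 2 := by norm_num
  rw [h, norm_mul, norm_two']
  norm_num

theorem norm_five : ‖(5 : ℚ_[2])‖ = 1 := by
  have h : (5 : ℚ_[2]) = 1 + 4 := by norm_num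
  rw [h, IsUltrametricDist.norm_add_eq_max_of_norm_ne_norm]
  · rw [norm_four, norm_one]
    norm_num
  · rw [norm_four, norm_one]
    norm_num

theorem norm_unit {u : ℚ_[2]} (hu : ‖u‖ = 1) : ‖u ^ 2 - 5‖ = 4⁻¹ := by
  let v : ℤ_[2] := ⟨u, hu.le⟩
  have hv : IsUnit v := PadicInt.isUnit_iff.2 hu
  have h1 : (PadicInt.toZModPow (p := 2) 3) (v ^ 2 - 1) = 0 := by
    rw [map_sub, map_pow, map_one, sub_eq_zero]
    have h2 : IsUnit ((PadicInt.toZModPow (p := 2) 3) v) := hv.map _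
    have h3 : ∀ z : ZMod (2 ^ 3), IsUnit z → z ^ 2 = 1 := by
      intro z hz
      obtain ⟨y, hy⟩ := hz.exists_right_inv
      revert z y
      have h4 : ∀ z y : ZMod 8, z * y = 1 → z ^ 2 = 1 := by decide
      intro z _ y hy
      exact h4 z y hy
    exact h3 _ h2
  have h2 : v ^ 2 - 1 ∈ RingHom.ker (PadicInt.toZModPow (p := 2) 3) := h1
  rw [PadicInt.ker_toZModPow, ← PadicInt.norm_le_pow_iff_mem_span_pow] at h2
  have h3 : ‖u ^ 2 - 1‖ ≤ 8⁻¹ := by
    have h4 : ((v ^ 2 - 1 : ℤ_[2]) : ℚ_[2]) = u ^ 2 - 1 := by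
      push_cast
      rfl
    rw [← h4]
    refine h2.trans (le_of_eq ?_)
    norm_num
  have h4 : u ^ 2 - 5 = (u ^ 2 - 1) + (-4) := by ring
  rw [h4, IsUltrametricDist.norm_add_eq_max_of_norm_ne_norm]
  · rw [norm_neg, norm_four, max_eq_right]
    exact h3.trans (by norm_num)
  · rw [norm_neg, norm_four]
    intro h5
    rw [h5] at h3
    norm_num at h3

theorem norm_zpow {b : ℚ_[2]} (hb : b ≠ 0) : ∃ k : ℤ, ‖b‖ = (2 : ℝ) ^ k := by
  refine ⟨-b.valuation, ?_⟩
  have := Padic.norm_eq_zpow_neg_valuation hb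
  simpa using this

theorem zpow_four (k : ℤ) : ((2 : ℝ) ^ k) ^ 2 = 4 ^ k := by
  rw [← zpow_natCast, ← zpow_mul, mul_comm, zpow_mul]
  norm_num

theorem norm5 (a b : ℚ_[2]) (h : a ^ 2 - 5 * b ^ 2 ≠ 0) :
    ∃ k : ℤ, ‖a ^ 2 - 5 * b ^ 2‖ = (4 : ℝ) ^ k := by
  by_cases hb : b = 0
  · subst hb
    have ha : a ≠ 0 := by
      rintro rfl
      exact h (by ring)
    obtain ⟨k, hk⟩ := norm_zpow ha
    refine ⟨k, ?_⟩
    have e : a ^ 2 - 5 * 0 ^ 2 = a ^ 2 := by ring
    rw [e, norm_pow, hk, zpow_four]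
  · obtain ⟨k, hk⟩ := norm_zpow hb
    have e : a ^ 2 - 5 * b ^ 2 = b ^ 2 * ((a / b) ^ 2 - 5) := by
      field_simp
    have key : ∃ l : ℤ, ‖(a / b) ^ 2 - 5‖ = (4 : ℝ) ^ l := by
      rcases lt_trichotomy ‖a / b‖ 1 with h1 | h1 | h1
      · refine ⟨0, ?_⟩
        have h2 : ‖(a / b) ^ 2‖ < 1 := by
          rw [norm_pow]
          exact pow_lt_one₀ (norm_nonneg _) h1 two_ne_zero
        rw [sub_eq_add_neg, IsUltrametricDist.norm_add_eq_max_of_norm_ne_norm]
        · rw [norm_neg, norm_five, max_eq_right h2.le, zpow_zero]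
        · rw [norm_neg, norm_five]
          exact h2.ne
      · exact ⟨-1, by rw [norm_unit h1, zpow_neg_one]⟩
      · have ha : a / b ≠ 0 := by
          intro h0
          rw [h0, norm_zero] at h1
          norm_num at h1
        obtain ⟨l, hl⟩ := norm_zpow ha
        refine ⟨l, ?_⟩
        have h2 : 1 < ‖(a / b) ^ 2‖ := by
          rw [norm_pow]
          exact one_lt_pow₀ h1 two_ne_zero
        rw [sub_eq_add_neg, IsUltrametricDist.norm_add_eq_max_of_norm_ne_norm]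
        · rw [norm_neg, norm_five, max_eq_left h2.le, norm_pow, hl, zpow_four]
        · rw [norm_neg, norm_five]
          exact h2.ne'
    obtain ⟨l, hl⟩ := key
    refine ⟨k + l, ?_⟩
    rw [e, norm_mul, norm_pow, hk, hl, zpow_four, zpow_add₀ (by norm_num)]

theorem not_sq (y : ℚ_[2]) : y ^ 2 ≠ 5 := by
  intro h
  have h1 : ‖y‖ = 1 := by
    have h2 := congrArg norm h
    rw [norm_pow, norm_five] at h2
    exact (pow_eq_one_iff_of_nonneg (norm_nonneg _) two_ne_zero).1 h2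
  have h2 := norm_unit h1
  rw [h, sub_self, norm_zero] at h2
  norm_num at h2

end Pool.Agent.L0h30.H1
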