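import Pool.Agent.L0h75.H1.Stm2
import Pool.Agent.L0h30.H1.H90
import Pool.Agent.L0h30.H1.N5

/-!
# H1: module T5, local Kummer theory modulo `8`
-/

set_option autoImplicit false

open scoped Topology

namespace Pool.Agent.L0h30.H1

open Pool.Agent.Y715.Nr (Au nrm fix_mem)

section quad

variable {f : PadicAlgCl 2} (hf : f ^ 2 = 5)

include hf

theorem f_ne : f ≠ 0 := by
  rintro rfl
  norm_num at hf

theorem f_or (σ : Au 2) : σ f = f ∨ σ f = -f := by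
  have h : (σ f) ^ 2 = f ^ 2 := by
    rw [← map_pow, hf]
    exact map_ofNat σ 5
  exact sq_eq_sq_iff_eq_or_eq_neg.1 h

theorem exists_neg : ∃ τ : Au 2, τ f = -f := by
  by_contra hcon
  push Not at hcon
  obtain ⟨y, hy⟩ := fix_mem (p := 2) (x := f) fun τ => (f_or hf τ).resolve_right (hcon τ)
  apply not_sq y
  apply (algebraMap ℚ_[2] (PadicAlgCl 2)).injective
  rw [map_pow, hy, hf, map_ofNat]

theorem fixL {τ : Au 2} (hτ : τ f = -f) {x : PadicAlgCl 2}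
    (hx : ∀ σ : Au 2, σ f = f → σ x = x) (hx0 : x ≠ 0) : ∃ k : ℤ, ‖x‖ = (2 : ℝ) ^ k := by
  have hf0 := f_ne hf
  have hτ' : τ⁻¹ f = -f := by
    have := congrArg (τ⁻¹ : Au 2) hτ
    rw [← AlgEquiv.mul_apply, inv_mul_cancel, AlgEquiv.one_apply, map_neg] at this
    exact (neg_eq_iff_eq_neg.2 this).symm
  have key : ∀ ρ : Au 2, ρ f = -f → ρ x = τ x := by
    intro ρ hρ
    have h1 : (τ⁻¹ * ρ) x = x := by
      apply hx
      rw [AlgEquiv.mul_apply, hρ, map_neg, hτ', neg_neg]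
    have h2 := congrArg τ h1
    rw [← AlgEquiv.mul_apply, ← mul_assoc, mul_inv_cancel, one_mul] at h2
    exact h2
  have k1 : ∀ ρ : Au 2, ρ f = f → ρ (τ x) = τ x := by
    intro ρ hρ
    rw [← AlgEquiv.mul_apply]
    apply key
    rw [AlgEquiv.mul_apply, hτ, map_neg, hρ]
  have k2 : ∀ ρ : Au 2, ρ f = -f → ρ (τ x) = x := by
    intro ρ hρ
    rw [← AlgEquiv.mul_apply]
    apply hx
    rw [AlgEquiv.mul_apply, hτ, map_neg, hρ, neg_neg]
  obtain ⟨a, ha⟩ := fix_mem (p := 2) (x := x + τ x) fun ρ => by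
    rw [map_add]
    rcases f_or hf ρ with h | h
    · rw [hx ρ h, k1 ρ h]
    · rw [key ρ h, k2 ρ h, add_comm]
  obtain ⟨b, hb⟩ := fix_mem (p := 2) (x := (x - τ x) / f) fun ρ => by
    rw [map_div₀, map_sub]
    rcases f_or hf ρ with h | h
    · rw [hx ρ h, k1 ρ h, h]
    · rw [key ρ h, k2 ρ h, h, div_neg, ← neg_div, neg_sub]
  have e1 : x * τ x = algebraMap ℚ_[2] (PadicAlgCl 2) ((a / 2) ^ 2 - 5 * (b / 2) ^ 2) := by
    rw [map_sub, map_mul, map_pow, map_pow, map_div₀, map_div₀, map_ofNat, map_ofNat, ha, hb, ← hf]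
    field_simp
    ring
  have hτx : τ x ≠ 0 := (map_ne_zero τ).2 hx0
  have h1 : (a / 2) ^ 2 - 5 * (b / 2) ^ 2 ≠ 0 := by
    intro h
    rw [h, map_zero] at e1
    exact mul_ne_zero hx0 hτx e1
  obtain ⟨k, hk⟩ := norm5 _ _ h1
  refine ⟨k, ?_⟩
  have h2 : ‖x‖ * ‖x‖ = (4 : ℝ) ^ k := by
    have h3 := congrArg norm e1
    rw [norm_mul, nrm] at h3
    rw [h3, ← hk]
    exact PadicAlgCl.norm_extends 2 _
  have h3 : ‖x‖ ^ 2 = ((2 : ℝ) ^ k) ^ 2 := by
    rw [zpow_four, pow_two, h2]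
  exact (pow_left_inj₀ (norm_nonneg _) (by positivity) two_ne_zero).1 h3

end quad

section zeta

variable {ζ : PadicAlgCl 2} (hζ : IsPrimitiveRoot ζ 8)

/-- powers of `ζ` -/
noncomputable def E (ζ : PadicAlgCl 2) (a : ZMod 8) : PadicAlgCl 2 := ζ ^ a.val

include hζ

theorem E_add (a b : ZMod 8) : E ζ (a + b) = E ζ a * E ζ b := by
  unfold E
  rw [ZMod.val_add, ← pow_add]
  exact (pow_eq_pow_mod _ hζ.pow_eq_one).symm

theorem E_nat (n : ℕ) : E ζ (n : ZMod 8) = ζ ^ n := by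
  unfold E
  rw [ZMod.val_natCast]
  exact (pow_eq_pow_mod _ hζ.pow_eq_one).symm

theorem E_pow (a : ZMod 8) (n : ℕ) : E ζ a ^ n = E ζ (n * a) := by
  have h : (n * a : ZMod 8) = ((n * a.val : ℕ) : ZMod 8) := by
    push_cast
    rw [ZMod.natCast_zmod_val]
  rw [h, E_nat hζ]
  unfold E
  rw [← pow_mul, mul_comm]

theorem E_ne (a : ZMod 8) : E ζ a ≠ 0 := pow_ne_zero _ (hζ.ne_zero (by norm_num))

theorem E_norm (a : ZMod 8) : ‖E ζ a‖ = 1 := by
  unfold E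
  have h : ‖ζ‖ ^ 8 = 1 := by rw [← norm_pow, hζ.pow_eq_one, norm_one]
  rw [norm_pow, (pow_eq_one_iff_of_nonneg (norm_nonneg _) (by norm_num)).1 h, one_pow]

theorem E_map {σ : Au 2} {x : ZMod 8} (h : σ ζ = E ζ x) (a : ZMod 8) : σ (E ζ a) = E ζ (x * a) := by
  have : σ (E ζ a) = (σ ζ) ^ a.val := by
    unfold E
    rw [map_pow]
  rw [this, h, E_pow hζ, ZMod.natCast_zmod_val, mul_comm]

theorem E_four (a : ZMod 8) : E ζ (4 * a) = if a.val % 2 = 0 then 1 else -1 := by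
  have h4 : ζ ^ 4 = -1 := by
    have h1 : (ζ ^ 4 - 1) * (ζ ^ 4 + 1) = 0 := by
      have h2 := hζ.pow_eq_one
      linear_combination h2
    rcases mul_eq_zero.1 h1 with h | h
    · exact absurd (sub_eq_zero.1 h) (hζ.pow_ne_one_of_pos_of_lt (by norm_num) (by norm_num))
    · exact eq_neg_of_add_eq_zero_left h
  have h5 : (4 * a : ZMod 8) = ((4 * a.val : ℕ) : ZMod 8) := by
    push_cast
    rw [ZMod.natCast_zmod_val]
  rw [h5, E_nat hζ, pow_mul, h4]
  split_ifs with h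
  · exact Even.neg_one_pow (Nat.even_iff.2 h)
  · exact Odd.neg_one_pow (Nat.odd_iff.2 (by omega))

end zeta

/-- **Module T5.** -/
theorem t_T5 : Pool.Agent.L0h75.H1.S_T5 := by
  intro ζ f s c χ hζ hf hc hχ hco hs0 hs1 hs2
  have hf0 := f_ne hf
  obtain ⟨τ, hτ⟩ := exists_neg hf
  have hχ1 : ∀ σ : Au 2, σ f = f → σ ζ = E ζ (χ σ) := fun σ h => (hχ σ).1 h
  have hχ2 : ∀ σ : Au 2, σ f = -f → σ ζ = E ζ (5 * χ σ) := fun σ h => (hχ σ).2 h
  have hc1 : c 1 = 0 := by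
    have h1 : (1 : Au 2) ζ = E ζ (χ 1) := hχ1 1 rfl
    have h2 : ζ ^ (1 : ℕ) = ζ ^ (χ 1).val := by
      rw [pow_one]
      exact h1
    have h3 : 1 = (χ 1).val := hζ.pow_inj (by norm_num) (ZMod.val_lt _) h2
    have h4 : χ 1 = 1 := by
      have := congrArg (fun n : ℕ => (n : ZMod 8)) h3
      simp only [ZMod.natCast_zmod_val, Nat.cast_one] at this
      exact this.symm
    have h5 := hco 1 1
    rw [mul_one, h4, one_mul] at h5
    exact left_eq_add.1 h5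
  let S : Subgroup (Au 2) := MulAction.stabilizer (Au 2) f
  have hS : ∀ σ : Au 2, σ ∈ S ↔ σ f = f := fun σ => Iff.rfl
  let W : Set (Au 2) := {σ | c σ = 0} ∩ {σ | σ f = f}
  have hW : W ∈ 𝓝 (1 : Au 2) := by
    apply Filter.inter_mem
    · exact (hc.isOpen_fiber 0).mem_nhds hc1
    · rw [krullTopology_mem_nhds_one_iff]
      refine ⟨IntermediateField.adjoin ℚ_[2] {f}, ?_, ?_⟩
      · apply IntermediateField.adjoin.finiteDimensional
        exact Algebra.IsIntegral.isIntegral f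
      · intro σ hσ
        exact (IntermediateField.mem_fixingSubgroup_iff _ _).1 hσ f
          (IntermediateField.mem_adjoin_simple_self ℚ_[2] f)
  obtain ⟨β, hβ0, hβ⟩ := h90 S (fun σ => E ζ (c σ)) (fun σ => E_ne hζ _) (by
    intro σ hσ ρ
    rw [hco, E_add hζ, E_map hζ (hχ1 σ hσ)]) W hW (fun σ h => h.2) (by
    intro σ ρ hρ
    have : c (σ * ρ) = c σ := by
      rw [hco, hρ.1, mul_zero, add_zero]
    rw [this])
  -- the first element of the unramified extension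
  have ht : ∀ σ : Au 2, σ f = f → σ (s / β ^ 4) = s / β ^ 4 := by
    intro σ hσ
    have h1 : σ β = E ζ (c σ) * β := hβ σ hσ
    have h2 : σ (β ^ 4) = E ζ (4 * c σ) * β ^ 4 := by
      rw [map_pow, h1, mul_pow, E_pow hζ]
      norm_num
    rw [map_div₀, h2, E_four hζ]
    by_cases hev : (c σ).val % 2 = 0
    · rw [if_pos hev, one_mul, (hs1 σ).2 hev]
    · rw [if_neg hev]
      have h3 : σ s = -s := by
        have h4 : (σ s) ^ 2 = s ^ 2 := by
          rw [← map_pow]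
          exact hs2 σ
        rcases sq_eq_sq_iff_eq_or_eq_neg.1 h4 with h5 | h5
        · exact absurd ((hs1 σ).1 h5) hev
        · exact h5
      rw [h3, neg_one_mul, neg_div_neg_eq]
  -- the second element
  have hτβ : τ β ≠ 0 := (map_ne_zero τ).2 hβ0
  have hγ : ∀ σ : Au 2, σ f = f →
      σ (τ β / (β ^ 5 * E ζ (5 * c τ))) = τ β / (β ^ 5 * E ζ (5 * c τ)) := by
    intro σ hσ
    have hτ' : τ⁻¹ f = -f := by
      have := congrArg (τ⁻¹ : Au 2) hτ
      rw [← AlgEquiv.mul_apply, inv_mul_cancel, AlgEquiv.one_apply, map_neg] at this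
      exact (neg_eq_iff_eq_neg.2 this).symm
    set σ' : Au 2 := τ⁻¹ * σ * τ with hσ'
    have e1 : σ * τ = τ * σ' := by
      rw [hσ', ← mul_assoc, ← mul_assoc, mul_inv_cancel, one_mul]
    have h1 : σ' f = f := by
      rw [hσ', AlgEquiv.mul_apply, AlgEquiv.mul_apply, hτ, map_neg, map_neg, hσ, hτ', neg_neg]
    have h2 : σ (τ β) = E ζ (5 * χ τ * c σ') * τ β := by
      rw [← AlgEquiv.mul_apply, e1, AlgEquiv.mul_apply, hβ σ' h1, map_mul, E_map hζ (hχ2 τ hτ)]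
    have h3 : σ (β ^ 5) = E ζ (5 * c σ) * β ^ 5 := by
      rw [map_pow, hβ σ hσ, mul_pow, E_pow hζ]
      norm_num
    have h4 : σ (E ζ (5 * c τ)) = E ζ (χ σ * (5 * c τ)) := E_map hζ (hχ1 σ hσ) _
    have h5 : c σ + χ σ * c τ = c τ + χ τ * c σ' := by
      rw [← hco, ← hco, e1]
    have h6 : E ζ (5 * χ τ * c σ') * E ζ (5 * c τ) = E ζ (5 * c σ) * E ζ (χ σ * (5 * c τ)) := by
      rw [← E_add hζ, ← E_add hζ]
      congr 1
      linear_combination (-5) * h5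
    rw [map_div₀, map_mul, h2, h3, h4]
    have n1 := E_ne hζ (5 * c τ)
    have n2 := E_ne hζ (5 * c σ)
    have n3 := E_ne hζ (χ σ * (5 * c τ))
    rw [div_eq_div_iff (mul_ne_zero (mul_ne_zero n2 (pow_ne_zero _ hβ0)) n3) (mul_ne_zero (pow_ne_zero _ hβ0) n1)]
    linear_combination (τ β * β ^ 5) * h6
  obtain ⟨k1, hk1⟩ := fixL hf hτ hγ (div_ne_zero hτβ (mul_ne_zero (pow_ne_zero _ hβ0) (E_ne hζ _)))
  obtain ⟨k2, hk2⟩ := fixL hf hτ ht (div_ne_zero hs0 (pow_ne_zero _ hβ0))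
  have hβn : ‖β‖ ≠ 0 := norm_ne_zero_iff.2 hβ0
  rw [norm_div, norm_mul, norm_pow, E_norm hζ, mul_one, nrm] at hk1
  rw [norm_div, norm_pow] at hk2
  have h4 : ‖β‖ ^ 4 = (2 : ℝ) ^ (-k1) := by
    rw [zpow_neg, ← hk1]
    field_simp
  have h5 : ‖s‖ = (2 : ℝ) ^ (k2 - k1) := by
    rw [div_eq_iff (pow_ne_zero _ hβn)] at hk2
    rw [hk2, h4, ← zpow_add₀ (by norm_num), sub_eq_add_neg]
  refine ⟨k1 - k2, ?_⟩
  rw [norm_pow, h5, zpow_four, one_div, inv_zpow', neg_sub]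

end Pool.Agent.L0h30.H1
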